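import Pool.Agent.Helper4.MCP.GoalsC

/-!
Project MCP (MP_d8224a_co), goal STAR (the star colouring).
-/

set_option autoImplicit false

namespace Pool.Agent.Helper15.MCP

open Pool.Agent.Helper4.MCP Pool.Agent.Helper26.MCE Pool.Agent.Helper87.MC Finset
open scoped Pointwise

open Classical in
/-- Greedy choice. -/
theorem exists_choice {G : Type} {M : ℕ} (D : Finset G) (S : G → Finset (Fin M))
    (h : ∀ d ∈ D, D.card ≤ (S d).card) :
    ∃ φ : D → Fin M, Function.Injective φ ∧ ∀ d : D, φ d ∈ S d := by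
  have key := (Finset.all_card_le_biUnion_card_iff_exists_injective
    (fun d : D => S (d : G))).1 (by
      intro s
      rcases s.eq_empty_or_nonempty with rfl | ⟨d, hd⟩
      · simp
      · calc s.card ≤ (univ : Finset D).card := card_le_card (subset_univ _)
          _ = D.card := by simp
          _ ≤ (S (d : G)).card := h _ d.2
          _ ≤ (s.biUnion fun d : D => S (d : G)).card :=
            card_le_card (subset_biUnion_of_mem (fun d : D => S (d : G)) hd))
  exact key

open Classical in
theorem goalSTAR : G_STAR := by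
  intro G _ _ D M q K R ω U j hD hdet hfull hRK hR0 hcard
  obtain ⟨φ, hinj, hφ⟩ := exists_choice D
    (fun d => U.filter fun v => Reg R (j d) (ω v) ∧ ∀ v', v' ≠ v → ω v + d - ω v' ∉ D) hcard
  have hU : ∀ d : D, φ d ∈ U := fun d => (mem_filter.1 (hφ d)).1
  have hreg : ∀ d : D, Reg R (j d) (ω (φ d)) := fun d => (mem_filter.1 (hφ d)).2.1
  have hmark : ∀ d : D, ∀ v', v' ≠ φ d → ω (φ d) + d - ω v' ∉ D :=
    fun d => (mem_filter.1 (hφ d)).2.2
  set F : Set G := {z | ∃ d : D, ∃ y ∈ D, y ≠ d ∧ z = ω (φ d) + y} with hF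
  have hA : ∀ d : D, ω (φ d) + (d : G) ∉ F := by
    rintro d ⟨d', y, hy, hne, heq⟩
    by_cases hdd : d' = d
    · subst hdd
      exact hne (add_left_cancel heq).symm
    · have h1 : φ d' ≠ φ d := fun h => hdd (hinj h)
      apply hmark d (φ d') h1
      have : ω (φ d) + (d : G) - ω (φ d') = y := by rw [heq]; abel
      rw [this]
      exact hy
  have hB : ∀ g : G, ∃ y ∈ D, g + y ∉ F := by
    intro g
    by_contra hcon
    push Not at hcon
    have hbad : Bad D ω (univ.image φ) g := by
      intro d hd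
      obtain ⟨d', y, hy, _, heq⟩ := hcon d hd
      refine ⟨φ d', mem_image_of_mem _ (mem_univ _), ?_⟩
      have : g + d - ω (φ d') = y := by rw [heq]; abel
      rw [this]
      exact hy
    have hsub : univ.image φ ⊆ U := by
      intro v hv
      obtain ⟨d, _, rfl⟩ := mem_image.1 hv
      exact hU d
    -- the conclusion from a host in the right coset
    have hfin : ∀ d : D, ω (φ d) - g ∈ K (j d) → False := by
      intro d hd
      have h1 := hfull d d.2
      rw [full, mem_filter] at h1
      have h2 := h1.2 _ hd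
      have h3 := hcon _ h2
      apply hA d
      have : ω (φ d) + (d : G) = g + ((d : G) + (ω (φ d) - g)) := by abel
      rw [this]
      exact h3
    by_cases hg : ∃ i, i ≠ 0 ∧ g ∈ R i
    · obtain ⟨i, hi0, hgi⟩ := hg
      obtain ⟨v, hv, hK⟩ := hdet i _ hsub g hbad
      obtain ⟨d, _, rfl⟩ := mem_image.1 hv
      have hωR : ω (φ d) ∈ R i := by
        have := hRK i g hgi _ hK
        have h2 : g + (ω (φ d) - g) = ω (φ d) := by abel
        rwa [h2] at this
      have hji : j d = i := by
        by_contra hne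
        exact (hreg d).2 i hi0 (fun h => hne h.symm) hωR
      exact hfin d (by rw [hji]; exact hK)
    · push Not at hg
      obtain ⟨v, hv, hK⟩ := hdet 0 _ hsub g hbad
      obtain ⟨d, _, rfl⟩ := mem_image.1 hv
      have hj0 : j d = 0 := by
        by_contra hne
        have h1 := (hreg d).1 hne
        have h2 := hR0 (j d) _ h1 (-(ω (φ d) - g)) ((K 0).neg_mem hK)
        have h3 : ω (φ d) + -(ω (φ d) - g) = g := by abel
        rw [h3] at h2
        exact hg _ hne h2
      exact hfin d (by rw [hj0]; exact hK)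
  refine ⟨Fᶜ, ?_, ?_⟩
  · rw [Set.eq_univ_iff_forall]
    intro g
    obtain ⟨y, hy, hyF⟩ := hB g
    refine Set.mem_add.2 ⟨g + y, hyF, -y, ?_, by abel⟩
    change - -y ∈ D
    rw [neg_neg]
    exact hy
  · intro C' hC' huniv
    obtain ⟨hsub, hnot⟩ := hC'
    obtain ⟨c, hc, hcC⟩ := Set.not_subset.1 hnot
    have hd : -c ∈ D := hc
    have hx : ω (φ ⟨-c, hd⟩) ∈ Fᶜ + C' := by rw [huniv]; exact Set.mem_univ _
    obtain ⟨w, hw, c', hc', heq⟩ := Set.mem_add.1 hx
    have hy : -c' ∈ D := hsub hc'
    have hw2 : w = ω (φ ⟨-c, hd⟩) + -c' := by rw [← heq]; abel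
    by_cases hcc : -c' = -c
    · exact hcC (neg_injective hcc ▸ hc')
    · exact hw ⟨⟨-c, hd⟩, -c', hy, hcc, hw2⟩

end Pool.Agent.Helper15.MCP
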